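import Pool.Agent.Helper67.PG.Wlln
import Pool.Agent.Helper79.GR.RC
import Pool.Agent.Helper79.GR.NC

/-!
# (L1): the `L¹` law of large numbers for integrable covariant metrics on an iid field

`S : (Edge d → ℝ) → V d → V d → ℝ` covariant, nonnegative, with the triangle inequality and
`E S(0, x) < ∞`.  Then `E |S(0, s x) / s - u| → 0` where `u = lim m(s x) / s`,
`m v = E S(0, v)`.  No moments, no bounds on the weights.
-/

set_option autoImplicit false

namespace Pool.Agent.Helper67.LL

open Pool.Agent.Helper79.GR MeasureTheory ProbabilityTheory Filter Topology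

variable {Ω : Type*} [MeasurableSpace Ω] {d : ℕ} {P : Measure Ω} {X : Edge d → Ω → ℝ}
  {ν : Measure ℝ}

/-- independent identically distributed weights, any law -/
structure Iid (P : Measure Ω) (X : Edge d → Ω → ℝ) (ν : Measure ℝ) : Prop where
  prob : IsProbabilityMeasure P
  meas : ∀ e, Measurable (X e)
  indep : iIndepFun X P
  law : ∀ e, P.map (X e) = ν

theorem Iid.of_env {a b : ℝ} (h : Env P X ν a b) : Iid P X ν := ⟨h.prob, h.meas, h.indep, h.law⟩

theorem Iid.measurable_cf (h : Iid P X ν) : Measurable (cf X) := measurable_pi_iff.2 h.meas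

theorem Iid.mp (h : Iid P X ν) (v : V d) :
    MeasurePreserving (fun ω e => X (sh v e) ω) P (P.map (cf X)) := by
  refine ⟨measurable_pi_iff.2 fun e => h.meas (sh v e), ?_⟩
  have h1 : P.map (cf X) = Measure.infinitePi (fun e => P.map (X e)) :=
    h.indep.map_fun_eq_infinitePi_map₀ (measurable_pi_iff.2 h.meas).aemeasurable
  have h2 : P.map (fun ω e => X (sh v e) ω) =
      Measure.infinitePi (fun e => P.map (X (sh v e))) :=
    (h.indep.precomp (sh_injective v)).map_fun_eq_infinitePi_map₀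
      (measurable_pi_iff.2 fun e => h.meas (sh v e)).aemeasurable
  rw [h1, h2]
  congr 1
  funext e
  rw [h.law, h.law]

/-- an edge is shifted away from a given edge -/
theorem sh_ne (v : V d) (hv : v ≠ 0) (e e' : Edge d) :
    ∀ᶠ n : ℕ in atTop, sh (n • v) e' ≠ e := by
  obtain ⟨i, hi⟩ : ∃ i, v i ≠ 0 := by
    by_contra hcon
    push Not at hcon
    exact hv (funext hcon)
  obtain ⟨x, y, hxy, _⟩ := e.2
  obtain ⟨x', y', hxy', _⟩ := e'.2
  filter_upwards [eventually_gt_atTop (|x i| + |y i| + |x' i|).toNat] with n hn heq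
  have h1 : (sh (n • v) e').1 = e.1 := congrArg Subtype.val heq
  have h2 : (sh (n • v) e').1 = s(x' + n • v, y' + n • v) := by
    show (e'.1.map fun z => z + n • v) = _
    rw [hxy', Sym2.map_mk]
  rw [h2, hxy, Sym2.eq_iff] at h1
  have h3 : (x' + n • v) i = x i ∨ (x' + n • v) i = y i := by
    rcases h1 with h1 | h1
    · exact Or.inl (congrFun h1.1 i)
    · exact Or.inr (congrFun h1.1 i)
  have h3' : x' i + n * v i = x i ∨ x' i + n * v i = y i := by
    simpa [Pi.add_apply, Pi.smul_apply] using h3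
  have h4 : (|x i| + |y i| + |x' i|) < n := by
    have := Int.self_le_toNat (|x i| + |y i| + |x' i|)
    have h6 : (((|x i| + |y i| + |x' i|).toNat : ℕ) : ℤ) < n := by exact_mod_cast hn
    omega
  have h5 : (n : ℤ) ≤ |(n : ℤ) * v i| := by
    rw [abs_mul, Nat.abs_cast]
    have h6 : 1 ≤ |v i| := Int.one_le_abs hi
    nlinarith [Int.natCast_nonneg n]
  rcases h3' with h3 | h3
  · have h6 : (n : ℤ) * v i = x i - x' i := by linarith
    rw [h6] at h5
    have h7 := abs_sub (x i) (x' i)
    have h8 := abs_nonneg (y i)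
    linarith
  · have h6 : (n : ℤ) * v i = y i - x' i := by linarith
    rw [h6] at h5
    have h7 := abs_sub (y i) (x' i)
    have h8 := abs_nonneg (x i)
    linarith

theorem sh_sh (v w : V d) (e : Edge d) : sh v (sh w e) = sh (w + v) e := by
  apply Subtype.ext
  show (e.1.map fun z => z + w).map (fun z => z + v) = e.1.map fun z => z + (w + v)
  rw [Sym2.map_map]
  congr 1
  funext z
  simp [add_assoc]

theorem sh_disj (v : V d) (hv : v ≠ 0) (A : Finset (Edge d)) :
    ∃ D : ℕ, ∀ i j : ℕ, i + D ≤ j → ∀ e ∈ A, ∀ e' ∈ A, sh (i • v) e ≠ sh (j • v) e' := by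
  have h1 : ∀ᶠ n : ℕ in atTop, ∀ e ∈ A, ∀ e' ∈ A, sh (n • v) e' ≠ e := by
    rw [Filter.eventually_all_finset]
    intro e _
    rw [Filter.eventually_all_finset]
    intro e' _
    exact sh_ne v hv e e'
  obtain ⟨D, hD⟩ := eventually_atTop.1 h1
  refine ⟨D, fun i j hij e he e' he' heq => ?_⟩
  refine hD (j - i) (by omega) e he e' he' ?_
  apply sh_injective (i • v)
  rw [sh_sh, ← add_smul, Nat.sub_add_cancel (by omega), heq]

theorem cyl_indep (h : Iid P X ν) (v : V d) (hv : v ≠ 0) (s : Set (Edge d → ℝ))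
    (hs : s ∈ measurableCylinders fun _ : Edge d => ℝ) :
    ∃ D : ℕ, ∀ i j : ℕ, i + D ≤ j →
      P.real ((fun ω e => X (sh (i • v) e) ω) ⁻¹' s ∩ (fun ω e => X (sh (j • v) e) ω) ⁻¹' s) =
        (P.map (cf X)).real s * (P.map (cf X)).real s := by
  classical
  obtain ⟨A, B, hB, rfl⟩ := (mem_measurableCylinders s).1 hs
  obtain ⟨D, hD⟩ := sh_disj v hv A
  refine ⟨D, fun i j hij => ?_⟩
  have hdis : Disjoint (A.image (sh (i • v))) (A.image (sh (j • v))) := by
    rw [Finset.disjoint_left]
    intro e he he'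
    rw [Finset.mem_image] at he he'
    obtain ⟨e1, h1, h2⟩ := he
    obtain ⟨e2, h3, h4⟩ := he'
    exact hD i j hij e1 h1 e2 h3 (h2.trans h4.symm)
  have hi := h.indep.indepFun_finset _ _ hdis h.meas
  have hmem : ∀ (k : ℕ) (e : A), sh (k • v) e ∈ A.image (sh (k • v)) := fun k e =>
    Finset.mem_image_of_mem _ e.2
  let ρ : (k : ℕ) → ((A.image (sh (k • v)) : Finset (Edge d)) → ℝ) → (A → ℝ) :=
    fun k g e => g ⟨sh (k • v) e, hmem k e⟩
  have hρ : ∀ k, Measurable (ρ k) := fun k =>
    measurable_pi_iff.2 fun e => measurable_pi_apply _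
  have hc := hi.comp (hρ i) (hρ j)
  have hc2 := hc.measure_inter_preimage_eq_mul B B hB hB
  have e1 : ∀ k : ℕ, (fun ω e => X (sh (k • v) e) ω) ⁻¹' (cylinder A B) =
      (ρ k ∘ fun ω (e : (A.image (sh (k • v)) : Finset (Edge d))) => X e ω) ⁻¹' B := by
    intro k
    rfl
  have e2 : ∀ k : ℕ, P ((fun ω e => X (sh (k • v) e) ω) ⁻¹' (cylinder A B)) =
      (P.map (cf X)) (cylinder A B) := fun k =>
    (h.mp (k • v)).measure_preimage hB.cylinder.nullMeasurableSet
  rw [← e1, ← e1, e2, e2] at hc2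
  unfold Measure.real
  rw [hc2, ENNReal.toReal_mul]

/-- a covariant integrable metric -/
structure Cov (P : Measure Ω) (X : Edge d → Ω → ℝ) (S : (Edge d → ℝ) → V d → V d → ℝ) :
    Prop where
  int : ∀ x, Integrable (fun c => S c 0 x) (P.map (cf X))
  cov : ∀ v x y, ∀ᵐ ω ∂P, S (fun e => X (sh v e) ω) x y = S (cf X ω) (x + v) (y + v)
  tri : ∀ x y z, ∀ᵐ ω ∂P, S (cf X ω) x z ≤ S (cf X ω) x y + S (cf X ω) y z
  nn : ∀ x y, ∀ᵐ ω ∂P, 0 ≤ S (cf X ω) x y

/-- the mean -/
noncomputable def mS (P : Measure Ω) (X : Edge d → Ω → ℝ) (S : (Edge d → ℝ) → V d → V d → ℝ)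
    (v : V d) : ℝ := ∫ ω, S (cf X ω) 0 v ∂P

variable {S : (Edge d → ℝ) → V d → V d → ℝ}

theorem Cov.int0 (hc : Cov P X S) (h : Iid P X ν) (x : V d) :
    Integrable (fun ω => S (cf X ω) 0 x) P :=
  (hc.int x).comp_measurable h.measurable_cf

theorem cov_ae (hc : Cov P X S) (x y : V d) :
    (fun ω => S (fun e => X (sh x e) ω) 0 (y - x)) =ᵐ[P] fun ω => S (cf X ω) x y := by
  filter_upwards [hc.cov x 0 (y - x)] with ω hω
  rw [hω, zero_add, sub_add_cancel]

theorem Cov.intg (hc : Cov P X S) (h : Iid P X ν) (x y : V d) :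
    Integrable (fun ω => S (cf X ω) x y) P := by
  have h1 : Integrable (fun ω => S (fun e => X (sh x e) ω) 0 (y - x)) P :=
    (h.mp x).integrable_comp_of_integrable (hc.int (y - x))
  exact h1.congr (cov_ae hc x y)

theorem Cov.mean (hc : Cov P X S) (h : Iid P X ν) (x y : V d) :
    ∫ ω, S (cf X ω) x y ∂P = mS P X S (y - x) := by
  rw [← integral_congr_ae (cov_ae hc x y)]
  have h1 := (h.mp x)
  have h2 : ∫ ω, S (fun e => X (sh x e) ω) 0 (y - x) ∂P =
      ∫ c, S c 0 (y - x) ∂(P.map (cf X)) := by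
    rw [← h1.map_eq, integral_map h1.measurable.aemeasurable]
    rw [h1.map_eq]
    exact (hc.int (y - x)).aestronglyMeasurable
  rw [h2, integral_map h.measurable_cf.aemeasurable (hc.int (y - x)).aestronglyMeasurable]
  rfl

theorem Cov.mS_nonneg (hc : Cov P X S) (v : V d) : 0 ≤ mS P X S v :=
  integral_nonneg_of_ae (hc.nn 0 v)

theorem Cov.mS_add (hc : Cov P X S) (h : Iid P X ν) (x y : V d) :
    mS P X S (x + y) ≤ mS P X S x + mS P X S y := by
  have h1 : ∫ ω, S (cf X ω) 0 (x + y) ∂P ≤
      ∫ ω, (S (cf X ω) 0 x + S (cf X ω) x (x + y)) ∂P :=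
    integral_mono_ae (hc.int0 h _) ((hc.int0 h _).add (hc.intg h _ _)) (hc.tri 0 x (x + y))
  rw [integral_add (hc.int0 h _) (hc.intg h _ _), hc.mean h x (x + y), add_sub_cancel_left] at h1
  exact h1

theorem chain_ae (hc : Cov P X S) (v : V d) (k : ℕ) (hk : 0 < k) :
    ∀ᵐ ω ∂P, S (cf X ω) 0 (k • v) ≤
      ∑ j ∈ Finset.range k, S (fun e => X (sh (j • v) e) ω) 0 v := by
  have h0 : ∀ j : ℕ, ∀ᵐ ω ∂P, S (fun e => X (sh (j • v) e) ω) 0 v =
      S (cf X ω) (j • v) ((j + 1) • v) := by
    intro j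
    filter_upwards [hc.cov (j • v) 0 v] with ω hω
    rw [hω, zero_add, add_smul, one_smul, add_comm v]
  induction k with
  | zero => exact absurd hk (lt_irrefl 0)
  | succ k ih =>
    rcases Nat.eq_zero_or_pos k with hk0 | hk0
    · subst hk0
      filter_upwards [h0 0] with ω hω
      rw [Finset.sum_range_one, hω]
      simp
    · filter_upwards [ih hk0, hc.tri 0 (k • v) ((k + 1) • v), h0 k] with ω h1 h2 h3
      rw [Finset.sum_range_succ, h3]
      linarith

/-- the upper law in `L¹` -/
theorem upper_L1 (hc : Cov P X S) (h : Iid P X ν) (v : V d) :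
    Tendsto (fun k : ℕ => ∫ ω, max (S (cf X ω) 0 (k • v) / k - mS P X S v) 0 ∂P) atTop
      (𝓝 0) := by
  have := h.prob
  have : IsProbabilityMeasure (P.map (cf X)) :=
    Measure.isProbabilityMeasure_map h.measurable_cf.aemeasurable
  by_cases hv : v = 0
  · subst hv
    have h1 : Tendsto (fun k : ℕ => mS P X S 0 / (k : ℝ)) atTop (𝓝 0) :=
      tendsto_const_div_atTop_nhds_zero_nat _
    refine squeeze_zero (fun k => integral_nonneg fun ω => le_max_right _ _) (fun k => ?_) h1
    unfold mS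
    rw [← integral_div]
    refine integral_mono_ae ?_ ((hc.int0 h 0).div_const _) ?_
    · simp only [smul_zero]
      exact (((hc.int0 h 0).div_const _).sub (integrable_const _)).sup (integrable_const 0)
    · filter_upwards [hc.nn 0 0] with ω hω
      have h2 := hc.mS_nonneg 0
      have h3 : 0 ≤ S (cf X ω) 0 0 / (k : ℝ) := div_nonneg hω (Nat.cast_nonneg _)
      simp only [smul_zero]
      refine max_le ?_ h3
      change S (cf X ω) 0 0 / (k : ℝ) - mS P X S 0 ≤ S (cf X ω) 0 0 / (k : ℝ)
      linarith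
  have hw := wlln (Ω' := Edge d → ℝ) (P := P) (μ := P.map (cf X))
    (Φ := fun (j : ℕ) ω e => X (sh (j • v) e) ω) (f := fun c => S c 0 v)
    (fun j => h.mp (j • v)) (measurableCylinders fun _ : Edge d => ℝ)
    isPiSystem_measurableCylinders generateFrom_measurableCylinders.symm
    (fun s hs => cyl_indep h v hv s hs) (hc.int v)
  have hm : ∫ c, S c 0 v ∂(P.map (cf X)) = mS P X S v := by
    rw [integral_map h.measurable_cf.aemeasurable (hc.int v).aestronglyMeasurable]
    rfl
  refine squeeze_zero' (Eventually.of_forall fun k =>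
    integral_nonneg fun ω => le_max_right _ _) ?_ hw
  filter_upwards [eventually_gt_atTop 0] with k hk
  have hk' : (0 : ℝ) < k := by exact_mod_cast hk
  unfold er
  rw [hm]
  have i1 : Integrable (fun ω => (∑ j ∈ Finset.range k,
      S (fun e => X (sh (j • v) e) ω) 0 v) / (k : ℝ)) P :=
    int_avg (Φ := fun (j : ℕ) ω e => X (sh (j • v) e) ω) (f := fun c => S c 0 v)
      (fun j => h.mp (j • v)) (hc.int v) k
  refine integral_mono_ae
    ((((hc.int0 h _).div_const _).sub (integrable_const _)).sup (integrable_const 0))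
    (i1.sub (integrable_const _)).abs ?_
  filter_upwards [chain_ae hc v k hk] with ω hω
  refine max_le (le_trans ?_ (le_abs_self _)) (abs_nonneg _)
  have h3 := div_le_div_of_nonneg_right hω hk'.le
  exact sub_le_sub_right h3 _

/-- the mean along a direction is subadditive, the limit exists -/
theorem exists_lim (hc : Cov P X S) (h : Iid P X ν) (x : V d) :
    ∃ u : ℝ, Tendsto (fun s : ℕ => mS P X S (s • x) / s) atTop (𝓝 u) := by
  have h1 : Subadditive fun s : ℕ => mS P X S (s • x) := by
    intro m n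
    show mS P X S ((m + n) • x) ≤ mS P X S (m • x) + mS P X S (n • x)
    rw [add_smul]
    exact hc.mS_add h _ _
  refine ⟨h1.lim, h1.tendsto_lim ⟨0, ?_⟩⟩
  rintro _ ⟨n, rfl⟩
  exact div_nonneg (hc.mS_nonneg _) (Nat.cast_nonneg _)

/-- **(L1)** -/
theorem law_L1 (hc : Cov P X S) (h : Iid P X ν) (x : V d) (u : ℝ)
    (hu : Tendsto (fun s : ℕ => mS P X S (s • x) / s) atTop (𝓝 u)) :
    Tendsto (fun s : ℕ => ∫ ω, |S (cf X ω) 0 (s • x) / s - u| ∂P) atTop (𝓝 0) := by
  have := h.prob
  -- the positive part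
  have hpos : Tendsto (fun s : ℕ => ∫ ω, max (S (cf X ω) 0 (s • x) / s - u) 0 ∂P) atTop
      (𝓝 0) := by
    rw [Metric.tendsto_atTop]
    intro ε hε
    have h1 : ∀ᶠ L : ℕ in atTop, mS P X S (L • x) / L < u + ε / 4 :=
      hu.eventually_lt_const (by linarith)
    obtain ⟨L, hL1, hL0⟩ := (h1.and (eventually_gt_atTop 0)).exists
    have hL' : (0 : ℝ) < L := by exact_mod_cast hL0
    set v : V d := L • x with hv
    have hup := upper_L1 hc h v
    have hdiv : Tendsto (fun s : ℕ => s / L) atTop atTop := by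
      refine tendsto_atTop.2 fun b => ?_
      filter_upwards [eventually_ge_atTop (b * L)] with s hs
      exact (Nat.le_div_iff_mul_le hL0).2 hs
    have hup2 := hup.comp hdiv
    set B : ℝ := ∑ r ∈ Finset.range L, mS P X S (r • x) with hB
    have hBs : Tendsto (fun s : ℕ => B / (s : ℝ)) atTop (𝓝 0) :=
      tendsto_const_div_atTop_nhds_zero_nat _
    have e1 : ∀ᶠ s : ℕ in atTop,
        ∫ ω, max (S (cf X ω) 0 ((s / L) • v) / ((s / L : ℕ) : ℝ) - mS P X S v) 0 ∂P < ε / 4 :=
      hup2.eventually_lt_const (by linarith)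
    have e2 : ∀ᶠ s : ℕ in atTop, B / (s : ℝ) < ε / 4 := hBs.eventually_lt_const (by linarith)
    obtain ⟨N, hN⟩ := eventually_atTop.1 (e1.and (e2.and (eventually_ge_atTop L)))
    refine ⟨N, fun s hs => ?_⟩
    obtain ⟨f1, f2, f3⟩ := hN s hs
    rw [Real.dist_eq, sub_zero, abs_of_nonneg (integral_nonneg fun ω => le_max_right _ _)]
    set k : ℕ := s / L with hk
    set r : ℕ := s % L with hr
    have hk1 : 0 < k := Nat.div_pos f3 hL0
    have hkr : s = k * L + r := by
      rw [hk, hr, mul_comm]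
      exact (Nat.div_add_mod s L).symm
    have hs0 : 0 < s := by omega
    have hs' : (0 : ℝ) < s := by exact_mod_cast hs0
    have hk' : (0 : ℝ) < k := by exact_mod_cast hk1
    have hkL : (k : ℝ) * L ≤ s := by
      have : k * L ≤ s := by omega
      exact_mod_cast this
    have hsx : s • x = k • v + r • x := by
      rw [hv, smul_smul, ← add_smul, ← hkr]
    have hrL : r < L := Nat.mod_lt _ hL0
    have hrB : mS P X S (r • x) ≤ B :=
      Finset.single_le_sum (f := fun r : ℕ => mS P X S (r • x))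
        (fun r _ => hc.mS_nonneg _) (Finset.mem_range.2 hrL)
    have i1 : Integrable (fun ω => max (S (cf X ω) 0 (k • v) / (k : ℝ) - mS P X S v) 0) P :=
      (((hc.int0 h _).div_const _).sub (integrable_const _)).sup (integrable_const 0)
    have i2 : Integrable (fun ω => S (cf X ω) (k • v) (s • x) / (s : ℝ)) P :=
      (hc.intg h _ _).div_const _
    have hmain : ∫ ω, max (S (cf X ω) 0 (s • x) / s - u) 0 ∂P ≤
        ∫ ω, (max (S (cf X ω) 0 (k • v) / (k : ℝ) - mS P X S v) 0 +
          S (cf X ω) (k • v) (s • x) / (s : ℝ) + ε / 4) ∂P := by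
      refine integral_mono_ae
        ((((hc.int0 h _).div_const _).sub (integrable_const _)).sup (integrable_const 0))
        ((i1.add i2).add (integrable_const _)) ?_
      filter_upwards [hc.tri 0 (k • v) (s • x), hc.nn (k • v) (s • x), hc.nn 0 (k • v)]
        with ω t1 t2 t3
      have t4 : 0 ≤ S (cf X ω) (k • v) (s • x) / (s : ℝ) := div_nonneg t2 hs'.le
      have t5 := le_max_right (S (cf X ω) 0 (k • v) / (k : ℝ) - mS P X S v) 0
      have t6 := le_max_left (S (cf X ω) 0 (k • v) / (k : ℝ) - mS P X S v) 0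
      refine max_le ?_ (by linarith)
      have hL1' : mS P X S v / L ≤ u + ε / 4 := hL1.le
      have hmv := hc.mS_nonneg v
      set M : ℝ := max (S (cf X ω) 0 (k • v) / (k : ℝ) - mS P X S v) 0 with hM
      -- `S(0,kv) ≤ k (m v + M)`
      have t7 : S (cf X ω) 0 (k • v) ≤ k * (mS P X S v + M) := by
        have t8 : S (cf X ω) 0 (k • v) / (k : ℝ) ≤ mS P X S v + M := by linarith
        rw [div_le_iff₀ hk'] at t8
        linarith
      have hL1r : (1 : ℝ) ≤ L := by exact_mod_cast hL0
      -- `k (m v + M) ≤ s (u + ε/4 + M)`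
      have t9 : k * (mS P X S v + M) ≤ s * (mS P X S v / L + M) := by
        have t10 : k * (mS P X S v + M) ≤ (k * L) * (mS P X S v / L + M) := by
          have : (k * L : ℝ) * (mS P X S v / L + M) = k * (mS P X S v + L * M) := by
            field_simp
          rw [this]
          refine mul_le_mul_of_nonneg_left ?_ hk'.le
          nlinarith
        refine t10.trans (mul_le_mul_of_nonneg_right hkL ?_)
        have : 0 ≤ mS P X S v / L := div_nonneg hmv hL'.le
        linarith
      have t11 : S (cf X ω) 0 (s • x) / (s : ℝ) ≤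
          (mS P X S v / L + M) + S (cf X ω) (k • v) (s • x) / (s : ℝ) := by
        rw [div_le_iff₀ hs', add_mul, div_mul_cancel₀ _ hs'.ne']
        linarith
      linarith
    have hsplit : ∫ ω, (max (S (cf X ω) 0 (k • v) / (k : ℝ) - mS P X S v) 0 +
          S (cf X ω) (k • v) (s • x) / (s : ℝ) + ε / 4) ∂P =
        ∫ ω, max (S (cf X ω) 0 (k • v) / (k : ℝ) - mS P X S v) 0 ∂P +
          mS P X S (r • x) / (s : ℝ) + ε / 4 := by
      have i3 : Integrable (fun ω => max (S (cf X ω) 0 (k • v) / (k : ℝ) - mS P X S v) 0 +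
          S (cf X ω) (k • v) (s • x) / (s : ℝ)) P := i1.add i2
      rw [integral_add i3 (integrable_const _), integral_add i1 i2, integral_div,
        hc.mean h (k • v) (s • x), integral_const]
      have e3 : s • x - k • v = r • x := by rw [hsx, add_sub_cancel_left]
      rw [e3]
      simp
    rw [hsplit] at hmain
    have g1 : mS P X S (r • x) / (s : ℝ) ≤ B / (s : ℝ) := div_le_div_of_nonneg_right hrB hs'.le
    linarith
  -- conclusion
  have h2 : ∀ s : ℕ, ∫ ω, |S (cf X ω) 0 (s • x) / s - u| ∂P =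
      2 * ∫ ω, max (S (cf X ω) 0 (s • x) / s - u) 0 ∂P - (mS P X S (s • x) / s - u) := by
    intro s
    have i0 : Integrable (fun ω => S (cf X ω) 0 (s • x) / (s : ℝ) - u) P :=
      ((hc.int0 h _).div_const _).sub (integrable_const _)
    have i1 : Integrable (fun ω => max (S (cf X ω) 0 (s • x) / (s : ℝ) - u) 0) P :=
      i0.sup (integrable_const 0)
    have e1 : ∫ ω, (S (cf X ω) 0 (s • x) / (s : ℝ) - u) ∂P = mS P X S (s • x) / s - u := by
      rw [integral_sub ((hc.int0 h _).div_const _) (integrable_const _), integral_div,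
        integral_const]
      simp [mS]
    rw [← e1, ← integral_const_mul, ← integral_sub (i1.const_mul 2) i0]
    congr 1
    funext ω
    rcases le_total 0 (S (cf X ω) 0 (s • x) / (s : ℝ) - u) with h3 | h3
    · rw [abs_of_nonneg h3, max_eq_left h3]
      ring
    · rw [abs_of_nonpos h3, max_eq_right h3]
      ring
  have h3 := (hpos.const_mul 2).sub (hu.sub_const u)
  rw [mul_zero, sub_self, sub_zero] at h3
  exact h3.congr fun s => (h2 s).symm

/-- passage times with weights in `[a, b]` -/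
theorem cov_T {a b : ℝ} (h : Env P X ν a b) : Cov P X fun c x y => T c x y where
  int x := by
    have h1 : AEStronglyMeasurable (fun c : Edge d → ℝ => T c 0 x) (P.map (cf X)) :=
      (measurable_T_cfg 0 x).aestronglyMeasurable
    rw [integrable_map_measure h1 (measurable_pi_iff.2 h.meas).aemeasurable]
    exact integrable_T h 0 x
  cov v x y := Eventually.of_forall fun ω => T_shift (cf X ω) v x y
  tri x y z := Eventually.of_forall fun ω => T_triangle (h.cf_bd ω) x y z
  nn x y := Eventually.of_forall fun ω =>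
    (mul_nonneg h.apos.le (n1_nonneg _)).trans (le_T (h.cf_bd ω) x y)

/-- **(L1)** for weights in `[a, b]` -/
theorem law_L1_T {a b : ℝ} (h : Env P X ν a b) (x : V d) :
    Tendsto (fun s : ℕ => ∫ ω, |T (cf X ω) 0 (s • x) / s - tc (mm P X) (rv x)| ∂P) atTop
      (𝓝 0) :=
  law_L1 (cov_T h) (Iid.of_env h) x _ (tendsto_nsmul (subM_mm h) x)

end Pool.Agent.Helper67.LL
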