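import Mathlib

/-!
# An `L¹` weak law of large numbers for integrable functions of asymptotically independent maps

`Φ j : Ω → Ω'` measure preserving, and for every set `s` of a generating π-system the events
`Φ i ⁻¹' s` and `Φ j ⁻¹' s` are independent for `i + D ≤ j`.  Then the averages of `f (Φ j ω)`
converge to `∫ f` in `L¹` for every integrable `f`.
-/

set_option autoImplicit false

namespace Pool.Agent.Helper67.LL

open MeasureTheory ProbabilityTheory Filter Topology

variable {Ω Ω' : Type*} [MeasurableSpace Ω] [MeasurableSpace Ω']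

/-- the `L¹` distance of the average to the mean -/
noncomputable def er (P : Measure Ω) (μ : Measure Ω') (Φ : ℕ → Ω → Ω') (f : Ω' → ℝ) (k : ℕ) : ℝ :=
  ∫ ω, |(∑ j ∈ Finset.range k, f (Φ j ω)) / k - ∫ x, f x ∂μ| ∂P

variable {P : Measure Ω} {μ : Measure Ω'} {Φ : ℕ → Ω → Ω'} {f g : Ω' → ℝ}

theorem er_nonneg (k : ℕ) : 0 ≤ er P μ Φ f k := integral_nonneg fun _ => abs_nonneg _

theorem int_comp (hΦ : ∀ j, MeasurePreserving (Φ j) P μ) (hf : Integrable f μ) (j : ℕ) :
    Integrable (fun ω => f (Φ j ω)) P :=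
  (hΦ j).integrable_comp_of_integrable hf

theorem int_avg (hΦ : ∀ j, MeasurePreserving (Φ j) P μ) (hf : Integrable f μ) (k : ℕ) :
    Integrable (fun ω => (∑ j ∈ Finset.range k, f (Φ j ω)) / (k : ℝ)) P :=
  (integrable_finsetSum _ fun j _ => int_comp hΦ hf j).div_const _

theorem integral_comp_eq (hΦ : ∀ j, MeasurePreserving (Φ j) P μ) (hf : Integrable f μ) (j : ℕ) :
    ∫ ω, f (Φ j ω) ∂P = ∫ x, f x ∂μ := by
  rw [← (hΦ j).map_eq, integral_map (hΦ j).measurable.aemeasurable]
  rw [(hΦ j).map_eq]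
  exact hf.aestronglyMeasurable

theorem avg_le (hΦ : ∀ j, MeasurePreserving (Φ j) P μ) (hf : Integrable f μ) (k : ℕ) :
    ∫ ω, |(∑ j ∈ Finset.range k, f (Φ j ω)) / (k : ℝ)| ∂P ≤ ∫ x, |f x| ∂μ := by
  rcases Nat.eq_zero_or_pos k with hk | hk
  · subst hk
    simp only [Finset.range_zero, Finset.sum_empty, zero_div, abs_zero, integral_zero]
    exact integral_nonneg fun _ => abs_nonneg _
  have hk' : (0 : ℝ) < k := by exact_mod_cast hk
  have h1 : ∫ ω, |(∑ j ∈ Finset.range k, f (Φ j ω)) / (k : ℝ)| ∂P ≤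
      ∫ ω, (∑ j ∈ Finset.range k, |f (Φ j ω)|) / (k : ℝ) ∂P := by
    refine integral_mono (int_avg hΦ hf k).abs
      ((integrable_finsetSum _ fun j _ => (int_comp hΦ hf j).abs).div_const _) fun ω => ?_
    show |(∑ j ∈ Finset.range k, f (Φ j ω)) / (k : ℝ)| ≤
      (∑ j ∈ Finset.range k, |f (Φ j ω)|) / (k : ℝ)
    rw [abs_div, Nat.abs_cast]
    exact div_le_div_of_nonneg_right (Finset.abs_sum_le_sum_abs _ _) hk'.le
  refine h1.trans (le_of_eq ?_)
  rw [integral_div, integral_finsetSum _ fun j _ => (int_comp hΦ hf j).abs]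
  have h2 : ∀ j ∈ Finset.range k, ∫ ω, |f (Φ j ω)| ∂P = ∫ x, |f x| ∂μ := fun j _ =>
    integral_comp_eq hΦ (f := fun x => |f x|) hf.abs j
  rw [Finset.sum_congr rfl h2, Finset.sum_const, Finset.card_range, nsmul_eq_mul]
  field_simp

theorem er_le [IsProbabilityMeasure P] [IsProbabilityMeasure μ]
    (hΦ : ∀ j, MeasurePreserving (Φ j) P μ) (hf : Integrable f μ) (hg : Integrable g μ) (k : ℕ) :
    er P μ Φ f k ≤ er P μ Φ g k + 2 * ∫ x, |f x - g x| ∂μ := by
  have hfg : Integrable (fun x => f x - g x) μ := hf.sub hg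
  have h1 : er P μ Φ f k ≤
      ∫ ω, (|(∑ j ∈ Finset.range k, g (Φ j ω)) / (k : ℝ) - ∫ x, g x ∂μ| +
        |(∑ j ∈ Finset.range k, (f (Φ j ω) - g (Φ j ω))) / (k : ℝ)| +
        ∫ x, |f x - g x| ∂μ) ∂P := by
    unfold er
    refine integral_mono ((int_avg hΦ hf k).sub (integrable_const _)).abs
      (((((int_avg hΦ hg k).sub (integrable_const _)).abs).add
        (int_avg (f := fun x => f x - g x) hΦ hfg k).abs).add (integrable_const _)) fun ω => ?_
    show |(∑ j ∈ Finset.range k, f (Φ j ω)) / (k : ℝ) - ∫ x, f x ∂μ| ≤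
      |(∑ j ∈ Finset.range k, g (Φ j ω)) / (k : ℝ) - ∫ x, g x ∂μ| +
        |(∑ j ∈ Finset.range k, (f (Φ j ω) - g (Φ j ω))) / (k : ℝ)| + ∫ x, |f x - g x| ∂μ
    have h2 : |∫ x, (f x - g x) ∂μ| ≤ ∫ x, |f x - g x| ∂μ := abs_integral_le_integral_abs
    rw [integral_sub hf hg] at h2
    have h3 : (∑ j ∈ Finset.range k, f (Φ j ω)) / (k : ℝ) - ∫ x, f x ∂μ =
        ((∑ j ∈ Finset.range k, g (Φ j ω)) / (k : ℝ) - ∫ x, g x ∂μ) +
        (∑ j ∈ Finset.range k, (f (Φ j ω) - g (Φ j ω))) / (k : ℝ) +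
        -(∫ x, f x ∂μ - ∫ x, g x ∂μ) := by
      rw [Finset.sum_sub_distrib, sub_div]
      ring
    rw [h3]
    refine (abs_add_three _ _ _).trans ?_
    rw [abs_neg]
    linarith
  refine h1.trans ?_
  rw [integral_add, integral_add, integral_const]
  · have h4 := avg_le (f := fun x => f x - g x) hΦ hfg k
    simp only [probReal_univ, smul_eq_mul, one_mul]
    unfold er
    linarith
  · exact ((int_avg hΦ hg k).sub (integrable_const _)).abs
  · exact (int_avg (f := fun x => f x - g x) hΦ hfg k).abs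
  · exact (((int_avg hΦ hg k).sub (integrable_const _)).abs).add
      (int_avg (f := fun x => f x - g x) hΦ hfg k).abs
  · exact integrable_const _

theorem er_closed [IsProbabilityMeasure P] [IsProbabilityMeasure μ]
    (hΦ : ∀ j, MeasurePreserving (Φ j) P μ) (hf : Integrable f μ)
    (h : ∀ ε > 0, ∃ g : Ω' → ℝ, Integrable g μ ∧ ∫ x, |f x - g x| ∂μ ≤ ε ∧
      Tendsto (er P μ Φ g) atTop (𝓝 0)) : Tendsto (er P μ Φ f) atTop (𝓝 0) := by
  rw [Metric.tendsto_atTop]
  intro ε hε
  obtain ⟨g, hg, h1, h2⟩ := h (ε / 4) (by linarith)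
  rw [Metric.tendsto_atTop] at h2
  obtain ⟨N, hN⟩ := h2 (ε / 4) (by linarith)
  refine ⟨N, fun k hk => ?_⟩
  have h3 := hN k hk
  have h4 := er_le hΦ hf hg k
  have h5 := er_nonneg (P := P) (μ := μ) (Φ := Φ) (f := f) k
  have h6 := er_nonneg (P := P) (μ := μ) (Φ := Φ) (f := g) k
  rw [Real.dist_eq, sub_zero, abs_of_nonneg h6] at h3
  rw [Real.dist_eq, sub_zero, abs_of_nonneg h5]
  linarith

theorem er_add [IsProbabilityMeasure P] [IsProbabilityMeasure μ]
    (hΦ : ∀ j, MeasurePreserving (Φ j) P μ) (hf : Integrable f μ) (hg : Integrable g μ)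
    (h1 : Tendsto (er P μ Φ f) atTop (𝓝 0)) (h2 : Tendsto (er P μ Φ g) atTop (𝓝 0)) :
    Tendsto (er P μ Φ (f + g)) atTop (𝓝 0) := by
  have h3 : Tendsto (fun k => er P μ Φ f k + er P μ Φ g k) atTop (𝓝 0) := by
    simpa using h1.add h2
  refine squeeze_zero (fun k => er_nonneg k) (fun k => ?_) h3
  unfold er
  have j1 : Integrable (fun ω => |(∑ j ∈ Finset.range k, f (Φ j ω)) / (k : ℝ) -
      ∫ x, f x ∂μ|) P := ((int_avg hΦ hf k).sub (integrable_const _)).abs
  have j2 : Integrable (fun ω => |(∑ j ∈ Finset.range k, g (Φ j ω)) / (k : ℝ) -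
      ∫ x, g x ∂μ|) P := ((int_avg hΦ hg k).sub (integrable_const _)).abs
  rw [← integral_add j1 j2]
  refine integral_mono
    ((int_avg (f := f + g) hΦ (hf.add hg) k).sub (integrable_const _)).abs
    (j1.add j2) fun ω => ?_
  show |(∑ j ∈ Finset.range k, (f + g) (Φ j ω)) / (k : ℝ) - ∫ x, (f + g) x ∂μ| ≤
    |(∑ j ∈ Finset.range k, f (Φ j ω)) / (k : ℝ) - ∫ x, f x ∂μ| +
    |(∑ j ∈ Finset.range k, g (Φ j ω)) / (k : ℝ) - ∫ x, g x ∂μ|
  have h4 : (∑ j ∈ Finset.range k, (f + g) (Φ j ω)) / (k : ℝ) - ∫ x, (f + g) x ∂μ =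
      ((∑ j ∈ Finset.range k, f (Φ j ω)) / (k : ℝ) - ∫ x, f x ∂μ) +
      ((∑ j ∈ Finset.range k, g (Φ j ω)) / (k : ℝ) - ∫ x, g x ∂μ) := by
    have e : ∫ x, (f + g) x ∂μ = ∫ x, f x ∂μ + ∫ x, g x ∂μ := integral_add hf hg
    rw [e]
    simp only [Pi.add_apply]
    rw [Finset.sum_add_distrib, add_div]
    ring
  rw [h4]
  exact abs_add_le _ _

theorem er_const_mul (c : ℝ) (h1 : Tendsto (er P μ Φ f) atTop (𝓝 0)) :
    Tendsto (er P μ Φ fun x => c * f x) atTop (𝓝 0) := by
  have h2 : ∀ k, er P μ Φ (fun x => c * f x) k = |c| * er P μ Φ f k := by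
    intro k
    unfold er
    rw [← integral_const_mul]
    congr 1
    funext ω
    rw [integral_const_mul, ← Finset.mul_sum, mul_div_assoc, ← mul_sub, abs_mul]
  have h3 := h1.const_mul |c|
  rw [mul_zero] at h3
  exact h3.congr fun k => (h2 k).symm

/-- sets which are approximated by the averages -/
def Gd (P : Measure Ω) (μ : Measure Ω') (Φ : ℕ → Ω → Ω') (s : Set Ω') : Prop :=
  Tendsto (er P μ Φ (s.indicator fun _ => (1 : ℝ))) atTop (𝓝 0)

theorem gd_compl [IsProbabilityMeasure P] [IsProbabilityMeasure μ]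
    (hΦ : ∀ j, MeasurePreserving (Φ j) P μ) {s : Set Ω'} (hs : MeasurableSet s)
    (h : Gd P μ Φ s) : Gd P μ Φ sᶜ := by
  have h1 : Gd P μ Φ Set.univ := by
    unfold Gd
    refine tendsto_const_nhds.congr' ?_
    filter_upwards [eventually_gt_atTop 0] with k hk
    have hk' : (k : ℝ) ≠ 0 := by exact_mod_cast hk.ne'
    unfold er
    simp [hk']
  have h2 := er_const_mul (-1) h
  have i1 : Integrable (Set.univ.indicator fun _ : Ω' => (1 : ℝ)) μ :=
    (integrable_const _).indicator MeasurableSet.univ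
  have i2 : Integrable (fun x => -1 * s.indicator (fun _ : Ω' => (1 : ℝ)) x) μ :=
    ((integrable_const _).indicator hs).const_mul _
  have h3 := er_add hΦ i1 i2 h1 h2
  unfold Gd
  convert h3 using 2
  funext x
  by_cases hx : x ∈ s <;> simp [hx]

theorem gd_empty : Gd P μ Φ (∅ : Set Ω') := by
  unfold Gd
  refine tendsto_const_nhds.congr fun k => ?_
  unfold er
  simp

theorem gd_union [IsProbabilityMeasure P] [IsProbabilityMeasure μ]
    (hΦ : ∀ j, MeasurePreserving (Φ j) P μ) {s t : Set Ω'} (hs : MeasurableSet s)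
    (ht : MeasurableSet t) (hst : Disjoint s t) (h : Gd P μ Φ s) (h' : Gd P μ Φ t) :
    Gd P μ Φ (s ∪ t) := by
  have h3 := er_add hΦ ((integrable_const (1 : ℝ)).indicator hs)
    ((integrable_const (1 : ℝ)).indicator ht) h h'
  unfold Gd
  rw [Set.indicator_union_of_disjoint hst]
  exact h3

theorem gd_iUnion [IsProbabilityMeasure P] [IsProbabilityMeasure μ]
    (hΦ : ∀ j, MeasurePreserving (Φ j) P μ) (s : ℕ → Set Ω')
    (hd : Pairwise (Function.onFun Disjoint s))
    (hs : ∀ n, MeasurableSet (s n)) (h : ∀ n, Gd P μ Φ (s n)) : Gd P μ Φ (⋃ n, s n) := by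
  have h1 : ∀ n, Gd P μ Φ (⋃ i ∈ Finset.range n, s i) := by
    intro n
    induction n with
    | zero => simpa using gd_empty
    | succ n ih =>
      have e : (⋃ i ∈ Finset.range (n + 1), s i) = (⋃ i ∈ Finset.range n, s i) ∪ s n := by
        rw [Finset.range_add_one, Finset.set_biUnion_insert, Set.union_comm]
      rw [e]
      refine gd_union hΦ (Finset.measurableSet_biUnion _ fun i _ => hs i) (hs n) ?_ ih (h n)
      rw [Set.disjoint_iUnion₂_left]
      intro i hi
      exact hd (Finset.mem_range.1 hi).ne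
  refine er_closed hΦ ((integrable_const (1 : ℝ)).indicator (MeasurableSet.iUnion hs))
    fun ε hε => ?_
  have h2 : Tendsto (fun n => μ (⋃ i ∈ Finset.range n, s i)) atTop (𝓝 (μ (⋃ n, s n))) := by
    have h3 : Monotone fun n => ⋃ i ∈ Finset.range n, s i := by
      intro m n hmn
      exact Set.biUnion_subset_biUnion_left (Finset.range_mono hmn)
    have h4 := tendsto_measure_iUnion_atTop (μ := μ) h3
    have e : (⋃ n, ⋃ i ∈ Finset.range n, s i) = ⋃ n, s n := by
      ext x
      simp only [Set.mem_iUnion, Finset.mem_range]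
      constructor
      · rintro ⟨_, i, _, hx⟩
        exact ⟨i, hx⟩
      · rintro ⟨i, hx⟩
        exact ⟨i + 1, i, Nat.lt_succ_self i, hx⟩
    rwa [e] at h4
  have h5 : Tendsto (fun n => μ.real (⋃ i ∈ Finset.range n, s i)) atTop
      (𝓝 (μ.real (⋃ n, s n))) := (ENNReal.tendsto_toReal (measure_ne_top _ _)).comp h2
  obtain ⟨n, hn⟩ := ((Metric.tendsto_atTop.1 h5) ε hε).imp fun n h => h n le_rfl
  have hm := Finset.measurableSet_biUnion (Finset.range n) fun i _ => hs i
  refine ⟨(⋃ i ∈ Finset.range n, s i).indicator fun _ => (1 : ℝ),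
    (integrable_const (1 : ℝ)).indicator hm, ?_, h1 n⟩
  have hsub : (⋃ i ∈ Finset.range n, s i) ⊆ ⋃ n, s n := by
    intro x hx
    simp only [Set.mem_iUnion] at hx ⊢
    obtain ⟨i, _, hx⟩ := hx
    exact ⟨i, hx⟩
  have h6 : ∀ x, |(⋃ n, s n).indicator (fun _ => (1 : ℝ)) x -
      (⋃ i ∈ Finset.range n, s i).indicator (fun _ => (1 : ℝ)) x| =
      (⋃ n, s n).indicator (fun _ => (1 : ℝ)) x -
      (⋃ i ∈ Finset.range n, s i).indicator (fun _ => (1 : ℝ)) x := by
    intro x
    refine abs_of_nonneg (sub_nonneg.2 ?_)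
    exact Set.indicator_le_indicator_of_subset hsub (fun _ => zero_le_one) x
  simp only [h6]
  rw [integral_sub ((integrable_const _).indicator (MeasurableSet.iUnion hs))
    ((integrable_const _).indicator hm), integral_indicator_const _ (MeasurableSet.iUnion hs),
    integral_indicator_const _ hm]
  rw [Real.dist_eq, abs_lt] at hn
  simp only [smul_eq_mul, mul_one]
  linarith

/-- finite range of dependence: the variance -/
theorem gd_basic [IsProbabilityMeasure P] [IsProbabilityMeasure μ]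
    (hΦ : ∀ j, MeasurePreserving (Φ j) P μ) {s : Set Ω'} (hs : MeasurableSet s) (D : ℕ)
    (h : ∀ i j, i + D ≤ j → P.real (Φ i ⁻¹' s ∩ Φ j ⁻¹' s) = μ.real s * μ.real s) :
    Gd P μ Φ s := by
  set m : ℝ := μ.real s with hm
  set Y : ℕ → Ω → ℝ := fun j ω => s.indicator (fun _ => (1 : ℝ)) (Φ j ω) - m with hY
  have hmean : ∫ x, s.indicator (fun _ => (1 : ℝ)) x ∂μ = m := by
    rw [integral_indicator_const _ hs]
    simp [hm]
  have hm0 : 0 ≤ m := measureReal_nonneg
  have hm1 : m ≤ 1 := measureReal_le_one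
  have hYm : ∀ j, Measurable (Y j) := fun j =>
    ((measurable_const.indicator hs).comp (hΦ j).measurable).sub_const _
  have hYb : ∀ j ω, |Y j ω| ≤ 1 := by
    intro j ω
    rw [abs_le]
    simp only [hY]
    by_cases hx : Φ j ω ∈ s
    · rw [Set.indicator_of_mem hx]
      constructor <;> linarith
    · rw [Set.indicator_of_notMem hx]
      constructor <;> linarith
  have hYi : ∀ i j, Integrable (fun ω => Y i ω * Y j ω) P := by
    intro i j
    refine Integrable.of_bound ((hYm i).mul (hYm j)).aestronglyMeasurable 1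
      (Filter.Eventually.of_forall fun ω => ?_)
    rw [Real.norm_eq_abs, abs_mul]
    exact mul_le_one₀ (hYb i ω) (abs_nonneg _) (hYb j ω)
  have hI : ∀ j, Integrable (fun ω => s.indicator (fun _ => (1 : ℝ)) (Φ j ω)) P := fun j =>
    int_comp hΦ ((integrable_const (1 : ℝ)).indicator hs) j
  have hIm : ∀ j, ∫ ω, s.indicator (fun _ => (1 : ℝ)) (Φ j ω) ∂P = m := fun j => by
    rw [integral_comp_eq (f := s.indicator fun _ => (1 : ℝ)) hΦ
      ((integrable_const (1 : ℝ)).indicator hs) j, hmean]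
  have h0 : ∀ i j, i + D ≤ j → ∫ ω, Y i ω * Y j ω ∂P = 0 := by
    intro i j hij
    have e : (fun ω => Y i ω * Y j ω) = fun ω =>
        ((Φ i ⁻¹' s ∩ Φ j ⁻¹' s).indicator (fun _ => (1 : ℝ)) ω -
          m * s.indicator (fun _ => (1 : ℝ)) (Φ i ω)) -
        (m * s.indicator (fun _ => (1 : ℝ)) (Φ j ω) - m * m) := by
      funext ω
      simp only [hY]
      by_cases h1 : Φ i ω ∈ s <;> by_cases h2 : Φ j ω ∈ s <;>
        simp [h1, h2] <;> ring
    have hms : MeasurableSet (Φ i ⁻¹' s ∩ Φ j ⁻¹' s) :=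
      ((hΦ i).measurable hs).inter ((hΦ j).measurable hs)
    rw [e, integral_sub, integral_sub, integral_sub, integral_indicator_const _ hms,
      integral_const_mul, integral_const_mul, hIm, hIm, h i j hij, integral_const]
    · simp
    · exact (hI j).const_mul _
    · exact integrable_const _
    · exact (integrable_const _).indicator hms
    · exact (hI i).const_mul _
    · exact ((integrable_const _).indicator hms).sub ((hI i).const_mul _)
    · exact ((hI j).const_mul _).sub (integrable_const _)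
  have hcov : ∀ i j, ∫ ω, Y i ω * Y j ω ∂P ≤ if i < j + D ∧ j < i + D then 1 else 0 := by
    intro i j
    split_ifs with hij
    · have h1 : ∫ ω, Y i ω * Y j ω ∂P ≤ ∫ _, (1 : ℝ) ∂P := by
        refine integral_mono (hYi i j) (integrable_const _) fun ω => ?_
        have h2 : |Y i ω * Y j ω| ≤ 1 := by
          rw [abs_mul]
          exact mul_le_one₀ (hYb i ω) (abs_nonneg _) (hYb j ω)
        exact (le_abs_self _).trans h2
      simpa using h1
    · rcases not_and_or.1 hij with hh | hh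
      · have h1 := h0 j i (not_lt.1 hh)
        rw [show (fun ω => Y i ω * Y j ω) = fun ω => Y j ω * Y i ω from
          funext fun ω => mul_comm _ _, h1]
      · rw [h0 i j (not_lt.1 hh)]
  have hrow : ∀ k i : ℕ, ∑ j ∈ Finset.range k, (if i < j + D ∧ j < i + D then (1 : ℝ) else 0) ≤
      2 * D := by
    intro k i
    rw [← Finset.sum_filter, Finset.sum_const, nsmul_eq_mul, mul_one]
    have h1 : (Finset.range k).filter (fun j => i < j + D ∧ j < i + D) ⊆
        Finset.Ico (i + 1 - D) (i + D) := by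
      intro j hj
      rw [Finset.mem_filter] at hj
      rw [Finset.mem_Ico]
      omega
    have h2 := Finset.card_le_card h1
    rw [Nat.card_Ico] at h2
    have h3 : ((Finset.range k).filter (fun j => i < j + D ∧ j < i + D)).card ≤ 2 * D := by
      omega
    exact_mod_cast h3
  -- the second moment
  have hsq : ∀ k : ℕ, ∫ ω, (∑ j ∈ Finset.range k, Y j ω) ^ 2 ∂P ≤ k * (2 * D) := by
    intro k
    have e : (fun ω => (∑ j ∈ Finset.range k, Y j ω) ^ 2) =
        fun ω => ∑ i ∈ Finset.range k, ∑ j ∈ Finset.range k, Y i ω * Y j ω := by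
      funext ω
      rw [pow_two, Finset.sum_mul_sum]
    rw [e, integral_finsetSum _ fun i _ => integrable_finsetSum _ fun j _ => hYi i j]
    have h1 : ∀ i ∈ Finset.range k,
        ∫ ω, ∑ j ∈ Finset.range k, Y i ω * Y j ω ∂P ≤ 2 * D := by
      intro i _
      rw [integral_finsetSum _ fun j _ => hYi i j]
      exact (Finset.sum_le_sum fun j _ => hcov i j).trans (hrow k i)
    refine (Finset.sum_le_sum h1).trans ?_
    simp
  have hYs : ∀ k : ℕ, Integrable (fun ω => (∑ j ∈ Finset.range k, Y j ω) ^ 2) P := by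
    intro k
    have e : (fun ω => (∑ j ∈ Finset.range k, Y j ω) ^ 2) =
        fun ω => ∑ i ∈ Finset.range k, ∑ j ∈ Finset.range k, Y i ω * Y j ω := by
      funext ω
      rw [pow_two, Finset.sum_mul_sum]
    rw [e]
    exact integrable_finsetSum _ fun i _ => integrable_finsetSum _ fun j _ => hYi i j
  -- the first moment: `|S| ≤ (S ^ 2 / t + t) / 2` with `t = √k`
  have hmain : ∀ k : ℕ, 0 < k → er P μ Φ (s.indicator fun _ => (1 : ℝ)) k ≤
      (2 * D + 1) / √(k : ℝ) := by
    intro k hk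
    have hk' : (0 : ℝ) < k := by exact_mod_cast hk
    have ht : 0 < √(k : ℝ) := Real.sqrt_pos.2 hk'
    have htt : √(k : ℝ) * √(k : ℝ) = k := Real.mul_self_sqrt hk'.le
    have h1 : er P μ Φ (s.indicator fun _ => (1 : ℝ)) k ≤
        ∫ ω, ((∑ j ∈ Finset.range k, Y j ω) ^ 2 / (k * √(k : ℝ)) + 1 / √(k : ℝ)) ∂P := by
      unfold er
      refine integral_mono
        ((int_avg hΦ ((integrable_const (1 : ℝ)).indicator hs) k).sub (integrable_const _)).abs
        (((hYs k).div_const _).add (integrable_const _)) fun ω => ?_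
      show |(∑ j ∈ Finset.range k, s.indicator (fun _ => (1 : ℝ)) (Φ j ω)) / (k : ℝ) -
        ∫ x, s.indicator (fun _ => (1 : ℝ)) x ∂μ| ≤
        (∑ j ∈ Finset.range k, Y j ω) ^ 2 / (k * √(k : ℝ)) + 1 / √(k : ℝ)
      rw [hmean]
      have e : (∑ j ∈ Finset.range k, s.indicator (fun _ => (1 : ℝ)) (Φ j ω)) / (k : ℝ) - m =
          (∑ j ∈ Finset.range k, Y j ω) / k := by
        simp only [hY]
        rw [Finset.sum_sub_distrib, Finset.sum_const, Finset.card_range, nsmul_eq_mul]
        field_simp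
      rw [e, abs_div, Nat.abs_cast, div_le_iff₀ hk']
      have e2 : ((∑ j ∈ Finset.range k, Y j ω) ^ 2 / (k * √(k : ℝ)) + 1 / √(k : ℝ)) * k =
          (∑ j ∈ Finset.range k, Y j ω) ^ 2 / √(k : ℝ) + √(k : ℝ) := by
        have h5 : (k : ℝ) / √(k : ℝ) = √(k : ℝ) := by
          rw [div_eq_iff ht.ne', htt]
        rw [add_mul, one_div_mul_eq_div, h5]
        congr 1
        field_simp
      rw [e2]
      set S : ℝ := ∑ j ∈ Finset.range k, Y j ω
      have h6 : S ^ 2 / √(k : ℝ) + √(k : ℝ) = (S ^ 2 + k) / √(k : ℝ) := by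
        rw [add_div]
        congr 1
        rw [eq_div_iff ht.ne', htt]
      rw [h6, le_div_iff₀ ht]
      have h7 : 0 ≤ (|S| - √(k : ℝ)) ^ 2 := sq_nonneg _
      have h8 : |S| ^ 2 = S ^ 2 := sq_abs S
      nlinarith [abs_nonneg S, mul_nonneg (abs_nonneg S) ht.le]
    refine h1.trans ?_
    rw [integral_add ((hYs k).div_const _) (integrable_const _), integral_div, integral_const]
    simp only [probReal_univ, smul_eq_mul, one_mul]
    have h2 : (∫ ω, (∑ j ∈ Finset.range k, Y j ω) ^ 2 ∂P) / (k * √(k : ℝ)) ≤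
        (k * (2 * D)) / (k * √(k : ℝ)) :=
      div_le_div_of_nonneg_right (hsq k) (by positivity)
    have h3 : ((k : ℝ) * (2 * D)) / (k * √(k : ℝ)) = 2 * D / √(k : ℝ) := by
      rw [mul_div_mul_left _ _ hk'.ne']
    rw [h3] at h2
    rw [add_div]
    linarith
  have hlim : Tendsto (fun k : ℕ => (2 * (D : ℝ) + 1) / √(k : ℝ)) atTop (𝓝 0) := by
    refine Tendsto.const_div_atTop ?_ _
    exact Real.tendsto_sqrt_atTop.comp tendsto_natCast_atTop_atTop
  refine squeeze_zero' (Filter.Eventually.of_forall fun k => er_nonneg k) ?_ hlim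
  filter_upwards [eventually_gt_atTop 0] with k hk
  exact hmain k hk

/-- **Weak law of large numbers in `L¹`.** -/
theorem wlln [IsProbabilityMeasure P] [IsProbabilityMeasure μ]
    (hΦ : ∀ j, MeasurePreserving (Φ j) P μ) (C : Set (Set Ω'))
    (hC : IsPiSystem C) (hgen : ‹MeasurableSpace Ω'› = MeasurableSpace.generateFrom C)
    (hind : ∀ s ∈ C, ∃ D : ℕ, ∀ i j, i + D ≤ j →
      P.real (Φ i ⁻¹' s ∩ Φ j ⁻¹' s) = μ.real s * μ.real s)
    (hf : Integrable f μ) : Tendsto (er P μ Φ f) atTop (𝓝 0) := by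
  have hset : ∀ s : Set Ω', MeasurableSet s → Gd P μ Φ s := by
    intro s hs
    refine MeasurableSpace.induction_on_inter (C := fun s _ => Gd P μ Φ s) hgen hC gd_empty
      (fun t ht => ?_) (fun t ht h => gd_compl hΦ ht h)
      (fun s hd hs h => gd_iUnion hΦ s hd hs h) s hs
    obtain ⟨D, hD⟩ := hind t ht
    refine gd_basic hΦ ?_ D hD
    rw [hgen]
    exact MeasurableSpace.measurableSet_generateFrom ht
  refine Integrable.induction (μ := μ)
    (fun f : Ω' → ℝ => Integrable f μ → Tendsto (er P μ Φ f) atTop (𝓝 0))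
    ?_ ?_ ?_ ?_ hf hf
  · intro c s hs _ _
    have h1 := er_const_mul c (hset s hs)
    convert h1 using 2
    funext x
    by_cases hx : x ∈ s <;> simp [hx]
  · intro f g _ hf hg h1 h2 _
    exact er_add hΦ hf hg (h1 hf) (h2 hg)
  · have hall : ∀ f : Ω' →₁[μ] ℝ, Integrable f μ := fun f => L1.integrable_coeFn f
    have e : {f : Ω' →₁[μ] ℝ | Integrable f μ → Tendsto (er P μ Φ f) atTop (𝓝 0)} =
        {f : Ω' →₁[μ] ℝ | Tendsto (er P μ Φ f) atTop (𝓝 0)} := by
      ext f
      exact ⟨fun h => h (hall f), fun h _ => h⟩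
    rw [e]
    refine isClosed_of_closure_subset fun f hf => ?_
    rw [Metric.mem_closure_iff] at hf
    refine er_closed hΦ (hall f) fun ε hε => ?_
    obtain ⟨g, hg, hd⟩ := hf ε hε
    refine ⟨g, hall g, ?_, hg⟩
    have h1 : ∫ x, |f x - g x| ∂μ = dist f g := by
      rw [L1.dist_eq_integral_dist]
      congr 1
    rw [h1]
    exact hd.le
  · intro f g hfg hf h1 _
    have hg : Integrable g μ := hf.congr hfg
    refine er_closed hΦ hg fun ε hε => ⟨f, hf, ?_, h1 hf⟩
    have h2 : (fun x => |g x - f x|) =ᵐ[μ] fun _ => (0 : ℝ) := by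
      filter_upwards [hfg] with x hx
      rw [hx, sub_self, abs_zero]
    rw [integral_congr_ae h2, integral_zero]
    exact hε.le

end Pool.Agent.Helper67.LL
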